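import Pool.Agent.NTW.StmtsD

/-!
# NTW, row FNT: finitely many group elements
-/

set_option autoImplicit false

open Matrix Filter Topology

namespace Pool.Agent.NTW.H17

open Pool.Agent.PFS Pool.Agent.PFJ Pool.Agent.NTS Pool.Agent.NTW

theorem fnt : FntStmt := by
  intro n C Γ hC p hp q hq
  have h := hC.toPCone
  obtain ⟨A1, hA1, h1⟩ := h.absorb hp q
  obtain ⟨A2, hA2, h2⟩ := h.absorb hq p
  obtain ⟨A, hA⟩ : ∃ A : ℝ, A = A1 + A2 := ⟨_, rfl⟩
  have hA0 : 0 < A := by rw [hA]; linarith
  have hpq : A • p - q ∈ closure C := by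
    have h3 := h.cl_add (subset_closure h1) (h.cl_smul (subset_closure hp) hA2.le)
    have h4 : A1 • p - q + A2 • p = A • p - q := by rw [hA]; module
    rwa [h4] at h3
  have hqp : A • q - p ∈ closure C := by
    have h3 := h.cl_add (subset_closure h2) (h.cl_smul (subset_closure hq) hA1.le)
    have h4 : A2 • q - p + A1 • q = A • q - p := by rw [hA]; module
    rwa [h4] at h3
  refine (Pool.Agent.PFS.H3.prp n C Γ hC p hp (16 * A ^ 2)).subset ?_
  rintro γ ⟨hγ, s, hs, h3, h4⟩
  have g1 : A • act γ p - act γ q ∈ closure C := by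
    have h5 := hC.act_cl hγ hpq
    rwa [CC.act_sub, CC.act_smul] at h5
  have g2 : A • act γ q - act γ p ∈ closure C := by
    have h5 := hC.act_cl hγ hqp
    rwa [CC.act_sub, CC.act_smul] at h5
  refine ⟨hγ, 4 * A * s, by positivity, ?_, ?_⟩
  · have h5 := h.cl_add (h.cl_smul g1 (t := 4 * s) (by positivity)) h3
    have h6 : (4 * s) • (A • act γ p - act γ q) + ((4 : ℝ) • (s • act γ q) - p) =
        (4 * A * s) • act γ p - p := by module
    rwa [h6] at h5
  · have h5 := h.cl_add (h.cl_smul g2 (t := 4 * A * s) (by positivity))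
      (h.cl_smul h4 (t := 4 * A ^ 2) (by positivity))
    have h6 : (4 * A * s) • (A • act γ q - act γ p) + (4 * A ^ 2) • ((4 : ℝ) • p - s • act γ q) =
        (16 * A ^ 2) • p - (4 * A * s) • act γ p := by module
    rwa [h6] at h5

end Pool.Agent.NTW.H17
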